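import Mathlib
import Pool.Agent.R114.Per.RankTwo

namespace Pool.Agent.Results.MP_395ab6_co.PermInequalityFails

open Finset Matrix Pool.Agent.R114.RankTwo
open scoped ComplexOrder

theorem cf_map {ι R S : Type*} [Fintype ι] [DecidableEq ι] [CommRing R] [CommRing S] (f : R →+* S)
    (a b : ι → R) (k : ℕ) : cf (fun i => f (a i)) (fun i => f (b i)) k = f (cf a b k) := by
  unfold cf
  rw [← Polynomial.coeff_map, Polynomial.map_prod]
  simp

/-- the permanent of the Gram matrix of Gaussian integer vectors, as an integer -/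
def pv {m : ℕ} (v : Fin m → GaussianInt × GaussianInt) : ℤ :=
  ∑ k ∈ range (m + 1), ((k.factorial * (m - k).factorial : ℕ) : ℤ) *
    ((coeffs (List.ofFn v)).getD k 0).norm

/-- the Gram matrix of vectors -/
noncomputable def gram {m : ℕ} (v : Fin m → GaussianInt × GaussianInt) : Matrix (Fin m) (Fin m) ℂ :=
  Matrix.of fun i j => ((v i).1 : ℂ) * star ((v j).1 : ℂ) + ((v i).2 : ℂ) * star ((v j).2 : ℂ)

theorem permanent_gram {m : ℕ} (v : Fin m → GaussianInt × GaussianInt) :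
    (gram v).permanent = ((pv v : ℤ) : ℂ) := by
  unfold gram
  rw [permanent_rank_two (fun i => ((v i).1 : ℂ)) (fun i => ((v i).2 : ℂ))
    (fun i => star ((v i).1 : ℂ)) (fun i => star ((v i).2 : ℂ))]
  have h1 : ∀ k, cf (fun i => ((v i).1 : ℂ)) (fun i => ((v i).2 : ℂ)) k =
      GaussianInt.toComplex ((coeffs (List.ofFn v)).getD k 0) := by
    intro k
    rw [cf_map GaussianInt.toComplex (fun i => (v i).1) (fun i => (v i).2), cf_fin]
  have h2 : ∀ k, cf (fun i => star ((v i).1 : ℂ)) (fun i => star ((v i).2 : ℂ)) k =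
      star (GaussianInt.toComplex ((coeffs (List.ofFn v)).getD k 0)) := by
    intro k
    rw [← h1 k]
    exact cf_map (starRingEnd ℂ) (fun i => ((v i).1 : ℂ)) (fun i => ((v i).2 : ℂ)) k
  rw [Fintype.card_fin, pv, Int.cast_sum]
  apply Finset.sum_congr rfl
  intro k _
  rw [h1, h2, Int.cast_mul, Int.cast_natCast]
  congr 1
  have h3 : star (GaussianInt.toComplex ((coeffs (List.ofFn v)).getD k 0)) =
      starRingEnd ℂ (GaussianInt.toComplex ((coeffs (List.ofFn v)).getD k 0)) := rfl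
  rw [h3, Complex.mul_conj, ← GaussianInt.intCast_real_norm]
  norm_cast

theorem gram_posSemidef {m : ℕ} (v : Fin m → GaussianInt × GaussianInt) :
    (gram v).PosSemidef := by
  have h : gram v = (Matrix.of fun (i : Fin m) (s : Fin 2) =>
      if s = 0 then ((v i).1 : ℂ) else ((v i).2 : ℂ)) * (Matrix.of fun (i : Fin m) (s : Fin 2) =>
      if s = 0 then ((v i).1 : ℂ) else ((v i).2 : ℂ))ᴴ := by
    ext i j
    simp [gram, Matrix.mul_apply, Fin.sum_univ_two, Matrix.conjTranspose_apply]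
  rw [h]
  exact Matrix.posSemidef_self_mul_conjTranspose _

/-- the fourteen vectors -/
def vec : Fin 14 → GaussianInt × GaussianInt :=
  ![(⟨1, 0⟩, ⟨0, 0⟩), (⟨0, 0⟩, ⟨1, 0⟩),
    (⟨1, 0⟩, ⟨1, 0⟩), (⟨1, 0⟩, ⟨0, 1⟩), (⟨1, 0⟩, ⟨-1, 0⟩), (⟨1, 0⟩, ⟨0, -1⟩),
    (⟨1, 0⟩, ⟨2, 2⟩), (⟨1, 0⟩, ⟨-2, 2⟩), (⟨1, 0⟩, ⟨-2, -2⟩), (⟨1, 0⟩, ⟨2, -2⟩),
    (⟨2, 0⟩, ⟨1, 1⟩), (⟨2, 0⟩, ⟨-1, 1⟩), (⟨2, 0⟩, ⟨-1, -1⟩), (⟨2, 0⟩, ⟨1, -1⟩)]

/-- the integer value of the left hand side -/
def lhs : ℤ := ∑ k : Fin 13, ((vec k.succ).1).norm * pv fun i : Fin 12 => vec (k.succAbove i).succ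

theorem pv_lt_lhs : pv vec < lhs := by
  decide +kernel

/-- The inequality fails: there is a complex positive semidefinite `14 × 14` matrix `A` with
`∑_{k ≥ 2} |a_{1k}|² per B_{kk} > per A`. -/
theorem result : ∃ A : Matrix (Fin 14) (Fin 14) ℂ, A.PosSemidef ∧
    A.permanent < ∑ k : Fin 13, ((‖A 0 k.succ‖ : ℝ) : ℂ) ^ 2 *
      ((A.submatrix Fin.succ Fin.succ).submatrix k.succAbove k.succAbove).permanent := by
  refine ⟨gram vec, gram_posSemidef vec, ?_⟩
  have h1 : ∀ k : Fin 13, ((‖gram vec 0 k.succ‖ : ℝ) : ℂ) ^ 2 *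
      (((gram vec).submatrix Fin.succ Fin.succ).submatrix k.succAbove k.succAbove).permanent =
      ((((vec k.succ).1).norm * pv fun i : Fin 12 => vec (k.succAbove i).succ : ℤ) : ℂ) := by
    intro k
    have h2 : ((gram vec).submatrix Fin.succ Fin.succ).submatrix k.succAbove k.succAbove =
        gram (fun i : Fin 12 => vec (k.succAbove i).succ) := rfl
    rw [h2, permanent_gram, Int.cast_mul]
    congr 1
    have h3 : gram vec 0 k.succ = starRingEnd ℂ ((vec k.succ).1 : ℂ) := by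
      have : vec 0 = (⟨1, 0⟩, ⟨0, 0⟩) := rfl
      simp [gram, this, GaussianInt.toComplex_def]
    rw [h3, ← Complex.ofReal_pow, Complex.sq_norm, Complex.normSq_conj,
      ← GaussianInt.intCast_real_norm]
    norm_cast
  rw [permanent_gram, Finset.sum_congr rfl (fun k _ => h1 k), ← Int.cast_sum]
  exact_mod_cast pv_lt_lhs

end Pool.Agent.Results.MP_395ab6_co.PermInequalityFails
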